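import Pool.Agent.H.MP_17a4b7_gt.D

open scoped ContDiff

namespace Pool.Agent.Results.MP_17a4b7_gt.RealTypes

/-- the vector field `L v` -/
noncomputable def app {n : ℕ} (L : (Fin n → ℝ) → Matrix (Fin n) (Fin n) ℝ)
    (v : (Fin n → ℝ) → (Fin n → ℝ)) : (Fin n → ℝ) → (Fin n → ℝ) := fun x => (L x).mulVec (v x)

/-- a smooth field of matrices whose Nijenhuis torsion vanishes on all smooth vector fields -/
def IsNijenhuis {n : ℕ} (L : (Fin n → ℝ) → Matrix (Fin n) (Fin n) ℝ) : Prop :=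
  (∀ i j, ContDiff ℝ ∞ fun x => L x i j) ∧
    ∀ v w : (Fin n → ℝ) → (Fin n → ℝ), ContDiff ℝ ∞ v → ContDiff ℝ ∞ w →
      VectorField.lieBracket ℝ (app L v) (app L w) -
        app L (VectorField.lieBracket ℝ (app L v) w + VectorField.lieBracket ℝ v (app L w)) +
        app L (app L (VectorField.lieBracket ℝ v w)) = 0

open Pool.Agent.H.MP_17a4b7_gt in
theorem result (n : ℕ) (A : Matrix (Fin n) (Fin n) ℝ)
    (hA : ∀ μ ∈ spectrum ℂ (A.map Complex.ofReal), μ.im = 0) :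
    ∃ L : (Fin n → ℝ) → Matrix (Fin n) (Fin n) ℝ, IsNijenhuis L ∧
      IsCompact (closure {x | L x ≠ 0}) ∧
      ∃ U : Set (Fin n → ℝ), IsOpen U ∧ IsConnected U ∧
        ∀ x ∈ U, ∃ P : Matrix (Fin n) (Fin n) ℝ, IsUnit P ∧ L x = P * A * P⁻¹ := by
  obtain ⟨L, hL, hc, U, hU, hU', hP⟩ := exists_field (E := Fin n → ℝ) (Matrix.toLin' A) (by
    intro μ hμ
    apply hA
    rw [Matrix.mem_spectrum_iff_isRoot_charpoly]
    have : A.map Complex.ofReal = A.map (algebraMap ℝ ℂ) := rfl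
    rw [this, Matrix.charpoly_map, Polynomial.IsRoot, Polynomial.eval_map_algebraMap]
    rwa [Matrix.charpoly_toLin'] at hμ)
  let M : (Fin n → ℝ) → Matrix (Fin n) (Fin n) ℝ := fun x =>
    LinearMap.toMatrix' (L x : (Fin n → ℝ) →ₗ[ℝ] (Fin n → ℝ))
  have hM : ∀ x v, (M x).mulVec v = L x v := fun x v => by
    simp [M, LinearMap.toMatrix'_mulVec]
  have happ : ∀ v, app M v = fun y => L y (v y) := fun v => funext fun y => hM y _
  refine ⟨M, ⟨fun i j => ?_, fun v w hv hw => ?_⟩, ?_, U, hU, hU', fun x hx => ?_⟩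
  · have : (fun x => M x i j) = fun x => L x (Pi.single j 1) i := by
      funext x
      simp [M, LinearMap.toMatrix'_apply]
    rw [this]
    exact (contDiff_apply ℝ ℝ i).comp (hL.1.clm_apply contDiff_const)
  · funext x
    simp only [happ, Pi.add_apply, Pi.sub_apply, Pi.zero_apply]
    exact hL.torsion hv hw x
  · refine hc.isCompact.of_isClosed_subset isClosed_closure (closure_mono fun x hx h => hx ?_)
    simp [M, h]
  · obtain ⟨P, hP⟩ := hP x hx
    let Q := LinearMap.toMatrix' (P : (Fin n → ℝ) →ₗ[ℝ] (Fin n → ℝ))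
    have hQ : IsUnit Q := by
      refine ⟨⟨Q, LinearMap.toMatrix' (P.symm : (Fin n → ℝ) →ₗ[ℝ] (Fin n → ℝ)), ?_, ?_⟩, rfl⟩
      · simp [Q, ← LinearMap.toMatrix'_comp]
      · simp [Q, ← LinearMap.toMatrix'_comp]
    refine ⟨Q, hQ, ?_⟩
    have h1 : M x * Q = Q * A := by
      refine Matrix.ext_iff_mulVec.2 fun v => ?_
      rw [← Matrix.mulVec_mulVec, ← Matrix.mulVec_mulVec, hM]
      simpa only [Q, LinearMap.toMatrix'_mulVec, LinearEquiv.coe_coe, Matrix.toLin'_apply]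
        using hP v
    rw [← h1, Matrix.mul_nonsing_inv_cancel_right _ _ ((Matrix.isUnit_iff_isUnit_det _).1 hQ)]

end Pool.Agent.Results.MP_17a4b7_gt.RealTypes
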